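import Mathlib
import Pool.Agent.MP_846daf_nt.Defs
import Pool.Agent.MP_846daf_nt.Proof

set_option autoImplicit false

open Pool.Agent.QSum

namespace Pool.Agent.Results.MP_846daf_nt.Full

/-- For all `n ≡ 3 (mod 4)` and `r ≥ 1`, both truncated sums vanish modulo `Φ_n(q)^2`. -/
theorem result : ∀ n r : ℕ, n % 4 = 3 → 1 ≤ r →
    CongZero n (S (r * n - 1)) ∧ CongZero n (S (r * n + (n - 1) / 2)) :=
  main_theorem

end Pool.Agent.Results.MP_846daf_nt.Full
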